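import Pool.Agent.W872.MX.Stm

/-! Project MX (MP_a05470_co), part TUR: the green Turan graph. -/

set_option autoImplicit false

namespace Pool.Agent.W765.MX

open Finset Filter W872.MX

theorem ncard_turan (n s : ℕ) (hs : 1 ≤ s) :
    (SimpleGraph.turanGraph n s).edgeSet.ncard = ∑ m ∈ range n, (m - m / s) := by
  classical
  have h1 : (SimpleGraph.turanGraph n s).edgeSet =
      (fun p : Fin n × Fin n => s(p.1, p.2)) ''
        {p | (p.1 : ℕ) < p.2 ∧ (p.1 : ℕ) % s ≠ (p.2 : ℕ) % s} := by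
    ext e
    induction e using Sym2.ind with
    | _ x y =>
      rw [SimpleGraph.mem_edgeSet, SimpleGraph.turanGraph_adj]
      constructor
      · intro h
        have hne : (x : ℕ) ≠ y := fun h' => h (by rw [h'])
        rcases lt_or_gt_of_ne hne with h2 | h2
        · exact ⟨(x, y), ⟨h2, h⟩, rfl⟩
        · exact ⟨(y, x), ⟨h2, h.symm⟩, Sym2.eq_swap⟩
      · rintro ⟨⟨a, b⟩, ⟨-, h⟩, h2⟩
        rcases Sym2.eq_iff.mp h2 with ⟨rfl, rfl⟩ | ⟨rfl, rfl⟩
        · exact h
        · exact h.symm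
  have hinj : Set.InjOn (fun p : Fin n × Fin n => s(p.1, p.2))
      {p | (p.1 : ℕ) < p.2 ∧ (p.1 : ℕ) % s ≠ (p.2 : ℕ) % s} := by
    rintro ⟨a, b⟩ ⟨h, -⟩ ⟨c, d⟩ ⟨h', -⟩ he
    rcases Sym2.eq_iff.mp he with ⟨h1, h2⟩ | ⟨h1, h2⟩
    · exact Prod.ext h1 h2
    · exfalso
      simp only at h h' h1 h2
      subst h1 h2
      omega
  rw [h1, Set.ncard_image_of_injOn hinj]
  have h2 : {p : Fin n × Fin n | (p.1 : ℕ) < p.2 ∧ (p.1 : ℕ) % s ≠ (p.2 : ℕ) % s} =
      ((univ.filter fun p : Fin n × Fin n => (p.1 : ℕ) < p.2 ∧ (p.1 : ℕ) % s ≠ (p.2 : ℕ) % s :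
        Finset (Fin n × Fin n)) : Set (Fin n × Fin n)) := by
    ext p
    simp
  rw [h2, Set.ncard_coe_finset, Finset.card_filter, Fintype.sum_prod_type_right]
  have h3 : ∀ y : Fin n, (∑ x : Fin n,
      if ((x, y) : Fin n × Fin n).1.val < ((x, y) : Fin n × Fin n).2.val ∧
        ((x, y) : Fin n × Fin n).1.val % s ≠ ((x, y) : Fin n × Fin n).2.val % s
      then 1 else 0) = (y : ℕ) - (y : ℕ) / s := by
    intro y
    have h4 := Fin.sum_univ_eq_sum_range
      (fun x : ℕ => if x < (y : ℕ) ∧ x % s ≠ (y : ℕ) % s then 1 else 0) n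
    rw [h4, ← Finset.card_filter]
    have h5 : (range n).filter (fun x => x < (y : ℕ) ∧ x % s ≠ (y : ℕ) % s) =
        (range y).filter (fun x => ¬ x % s = (y : ℕ) % s) := by
      ext x
      simp only [mem_filter, mem_range]
      have := y.2
      constructor
      · rintro ⟨_, h6, h7⟩
        exact ⟨h6, h7⟩
      · rintro ⟨h6, h7⟩
        exact ⟨by omega, h6, h7⟩
    rw [h5]
    have h6 := Finset.card_filter_add_card_filter_not (s := range (y : ℕ))
      (fun x => x % s = (y : ℕ) % s)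
    have h7 : ((range (y : ℕ)).filter (fun x => x % s = (y : ℕ) % s)).card = (y : ℕ) / s := by
      have h8 := Nat.count_modEq_card (r := s) (y : ℕ) (by omega) (y : ℕ)
      rw [if_neg (lt_irrefl _), add_zero, Nat.count_eq_card_filter_range] at h8
      exact h8
    rw [card_range] at h6
    omega
  rw [Finset.sum_congr rfl (fun y _ => h3 y)]
  exact Fin.sum_univ_eq_sum_range (fun m : ℕ => m - m / s) n

theorem part1 (n s : ℕ) (hs : 1 ≤ s) :
    ((SimpleGraph.turanGraph n s).edgeSet.ncard : ℝ) =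
      ∑ m ∈ range n, ((m : ℝ) - ((m / s : ℕ) : ℝ)) := by
  rw [ncard_turan n s hs, Nat.cast_sum]
  apply Finset.sum_congr rfl
  intro m _
  rw [Nat.cast_sub (Nat.div_le_self _ _)]

theorem part2 (n h : ℕ) (p : ℝ) (R : SimpleGraph (Fin h)) (hh : 2 ≤ h) (hp : 0 ≤ p)
    (hp1 : p ≤ 1) :
    ((SimpleGraph.turanGraph n (h - 1)).edgeSet.ncard : ℝ) ≤ ex p n R := by
  unfold ex
  apply le_csSup
  · refine ⟨(Nat.card (Sym2 (Fin n)) : ℝ), ?_⟩
    rintro w ⟨G, -, rfl⟩
    have hB : ∀ H : SimpleGraph (Fin n), (H.edgeSet.ncard : ℝ) ≤ (Nat.card (Sym2 (Fin n)) : ℝ) := by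
      intro H
      have := Set.ncard_le_ncard (Set.subset_univ H.edgeSet) Set.finite_univ
      rw [Set.ncard_univ] at this
      exact_mod_cast this
    unfold MG.weight
    have h1 := mul_le_mul_of_nonneg_left (hB G.red) hp
    have h2 := mul_le_mul_of_nonneg_left (hB G.blue) (by linarith : (0 : ℝ) ≤ 1 - p)
    linarith
  · refine ⟨⟨SimpleGraph.turanGraph n (h - 1), SimpleGraph.turanGraph n (h - 1)⟩, ?_, ?_⟩
    · rintro ⟨f, hf⟩
      have hadj : ∀ x y : Fin h, x ≠ y → (f x : ℕ) % (h - 1) ≠ (f y : ℕ) % (h - 1) := by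
        intro x y hxy
        by_cases hR : R.Adj x y
        · exact SimpleGraph.turanGraph_adj.mp ((hf x y).1 hR)
        · exact SimpleGraph.turanGraph_adj.mp ((hf x y).2 ((SimpleGraph.compl_adj R x y).mpr
            ⟨hxy, hR⟩))
      have hlt : ∀ x : Fin h, (f x : ℕ) % (h - 1) < h - 1 := fun x =>
        Nat.mod_lt _ (by omega)
      have hi : Function.Injective (fun x : Fin h => (⟨(f x : ℕ) % (h - 1), hlt x⟩ : Fin (h - 1))) := by
        intro x y hxy
        by_contra hne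
        exact hadj x y hne (Fin.mk.inj hxy)
      have := Fintype.card_le_of_injective _ hi
      rw [Fintype.card_fin, Fintype.card_fin] at this
      omega
    · unfold MG.weight
      simp only
      ring

theorem sum_id_eq (n : ℕ) : ∑ m ∈ range n, (m : ℝ) = (n.choose 2 : ℝ) := by
  induction n with
  | zero => simp
  | succ n ih =>
    rw [Finset.sum_range_succ, ih, Nat.choose_succ_succ' n 1, Nat.choose_one_right]
    push_cast
    ring

theorem part3 (s : ℕ) (hs : 1 ≤ s) : Tendsto (fun n : ℕ =>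
      ((SimpleGraph.turanGraph n s).edgeSet.ncard : ℝ) / (n.choose 2 : ℝ)) atTop
      (nhds (1 - 1 / (s : ℝ))) := by
  have hs0 : (0 : ℝ) < s := by exact_mod_cast hs
  have hlim : Tendsto (fun n : ℕ => (1 - 1 / (s : ℝ)) + (n : ℝ) / (n.choose 2 : ℝ)) atTop
      (nhds (1 - 1 / (s : ℝ))) := by
    have h1 : Tendsto (fun n : ℕ => (n : ℝ) / (n.choose 2 : ℝ)) atTop (nhds 0) := by
      have h2 : Tendsto (fun n : ℕ => 2 / ((n : ℝ) - 1)) atTop (nhds 0) := by
        apply Tendsto.const_div_atTop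
        exact tendsto_atTop_add_const_right _ _ tendsto_natCast_atTop_atTop
      refine h2.congr' ?_
      filter_upwards [eventually_ge_atTop 2] with n hn
      have hn' : (2 : ℝ) ≤ n := by exact_mod_cast hn
      rw [Nat.cast_choose_two]
      have h3 : (n : ℝ) ≠ 0 := by linarith
      have h4 : (n : ℝ) - 1 ≠ 0 := by
        have : (0 : ℝ) < (n : ℝ) - 1 := by linarith
        exact this.ne'
      field_simp
    simpa using h1.const_add (1 - 1 / (s : ℝ))
  refine tendsto_of_tendsto_of_tendsto_of_le_of_le' tendsto_const_nhds hlim ?_ ?_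
  · filter_upwards [eventually_ge_atTop 2] with n hn
    have hC : (0 : ℝ) < (n.choose 2 : ℝ) := by exact_mod_cast Nat.choose_pos hn
    rw [le_div_iff₀ hC, part1 n s hs, Finset.sum_sub_distrib, sum_id_eq]
    have h1 : ∑ m ∈ range n, ((m / s : ℕ) : ℝ) ≤ ∑ m ∈ range n, (m : ℝ) / s :=
      Finset.sum_le_sum fun m _ => Nat.cast_div_le
    rw [← Finset.sum_div, sum_id_eq] at h1
    have h2 : (1 - 1 / (s : ℝ)) * (n.choose 2 : ℝ) =
        (n.choose 2 : ℝ) - (n.choose 2 : ℝ) / s := by ring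
    linarith
  · filter_upwards [eventually_ge_atTop 2] with n hn
    have hC : (0 : ℝ) < (n.choose 2 : ℝ) := by exact_mod_cast Nat.choose_pos hn
    rw [div_le_iff₀ hC, part1 n s hs, Finset.sum_sub_distrib, sum_id_eq]
    have h1 : ∑ m ∈ range n, ((m : ℝ) / s - 1) ≤ ∑ m ∈ range n, ((m / s : ℕ) : ℝ) := by
      apply Finset.sum_le_sum
      intro m _
      have h3 := Nat.div_add_mod m s
      have h4 := Nat.mod_lt m hs
      rw [sub_le_iff_le_add, div_le_iff₀ hs0]
      have h5 : m ≤ (m / s + 1) * s := by nlinarith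
      exact_mod_cast h5
    rw [Finset.sum_sub_distrib, ← Finset.sum_div, sum_id_eq, Finset.sum_const, card_range,
      nsmul_eq_mul, mul_one] at h1
    have h2 : ((1 - 1 / (s : ℝ)) + (n : ℝ) / (n.choose 2 : ℝ)) * (n.choose 2 : ℝ) =
        (n.choose 2 : ℝ) - (n.choose 2 : ℝ) / s + n := by
      field_simp
    linarith

theorem main : W872.MX.PartTUR := ⟨part1, part2, part3⟩

end Pool.Agent.W765.MX
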