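import Pool.Agent.W587.MX.Stm

/-!
Project MX, parts C1 and C2: limits along an ultrafilter.
-/

set_option autoImplicit false

namespace Pool.Agent.W765.MXU

open Set Filter Topology Metric
open Pool.Agent.W587.MX

theorem exists_lim_of_bdd (l : Ultrafilter ℕ) (y : ℕ → ℂ) (B : ℝ)
    (h : ∀ᶠ n in (l : Filter ℕ), ‖y n‖ ≤ B) : ∃ ys : ℂ, Tendsto y l (𝓝 ys) := by
  have hc : IsCompact (closedBall (0 : ℂ) B) := isCompact_closedBall 0 B
  have hle : ((l.map y : Ultrafilter ℂ) : Filter ℂ) ≤ 𝓟 (closedBall (0 : ℂ) B) := by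
    rw [Filter.le_principal_iff]
    have : ∀ᶠ n in (l : Filter ℕ), y n ∈ closedBall (0 : ℂ) B := by
      filter_upwards [h] with n hn
      rw [mem_closedBall_zero_iff]
      exact hn
    exact this
  obtain ⟨ys, _, hys⟩ := hc.ultrafilter_le_nhds (l.map y) hle
  exact ⟨ys, hys⟩

theorem c1 : C1_CLS := by
  intro l κ z w hκ hzw
  by_cases hb : ∃ B : ℝ, ∀ᶠ n in (l : Filter ℕ), ‖z n‖ ≤ B
  · obtain ⟨B, hB⟩ := hb
    obtain ⟨zs, hzs⟩ := exists_lim_of_bdd l z B hB
    by_cases h0 : zs = 0
    · left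
      rw [h0] at hzs
      exact hzs
    · right; right
      have hnz : ‖zs‖ ≠ 0 := by simpa using h0
      have hpos : 0 < ‖zs‖ := lt_of_le_of_ne (norm_nonneg _) (Ne.symm hnz)
      have hnorm : Tendsto (fun n => ‖z n‖) l (𝓝 ‖zs‖) := hzs.norm
      have hdiv : Tendsto (fun n => ‖z n * w n‖ / ‖z n‖) l (𝓝 (κ / ‖zs‖)) :=
        hzw.div hnorm hnz
      have hev : ∀ᶠ n in (l : Filter ℕ), ‖z n * w n‖ / ‖z n‖ = ‖w n‖ := by
        have hne : ∀ᶠ n in (l : Filter ℕ), 0 < ‖z n‖ := hnorm.eventually (lt_mem_nhds hpos)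
        filter_upwards [hne] with n hn
        rw [norm_mul, mul_div_cancel_left₀ _ hn.ne']
      have hbw : ∀ᶠ n in (l : Filter ℕ), ‖w n‖ ≤ κ / ‖zs‖ + 1 := by
        have h1 : ∀ᶠ n in (l : Filter ℕ), ‖z n * w n‖ / ‖z n‖ < κ / ‖zs‖ + 1 :=
          hdiv.eventually (gt_mem_nhds (by linarith))
        filter_upwards [h1, hev] with n h1 h2
        rw [h2] at h1
        exact h1.le
      obtain ⟨ws, hws⟩ := exists_lim_of_bdd l w _ hbw
      have hprod : Tendsto (fun n => ‖z n * w n‖) l (𝓝 ‖zs * ws‖) := (hzs.mul hws).norm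
      have heq : ‖zs * ws‖ = κ := tendsto_nhds_unique hprod hzw
      refine ⟨zs, ws, h0, ?_, hzs, hws, heq⟩
      intro hw0
      rw [hw0, mul_zero, norm_zero] at heq
      exact hκ.ne heq
  · right; left
    have hunb : Tendsto (fun n => ‖z n‖) l atTop := by
      rw [Filter.tendsto_atTop]
      intro B
      have h1 : ¬ ∀ᶠ n in (l : Filter ℕ), ‖z n‖ ≤ B := fun h => hb ⟨B, h⟩
      have h2 : ∀ᶠ n in (l : Filter ℕ), ¬ ‖z n‖ ≤ B := Ultrafilter.eventually_not.2 h1
      filter_upwards [h2] with n hn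
      exact (not_le.1 hn).le
    have hinv : Tendsto (fun n => ‖z n‖⁻¹) l (𝓝 0) := hunb.inv_tendsto_atTop
    have hmul : Tendsto (fun n => ‖z n * w n‖ * ‖z n‖⁻¹) l (𝓝 (κ * 0)) := hzw.mul hinv
    rw [mul_zero] at hmul
    rw [tendsto_zero_iff_norm_tendsto_zero]
    refine hmul.congr' ?_
    have hne : ∀ᶠ n in (l : Filter ℕ), 0 < ‖z n‖ := hunb.eventually (eventually_gt_atTop 0)
    filter_upwards [hne] with n hn
    rw [norm_mul]
    field_simp

theorem c2 : C2_LIM := by
  intro f l z a zs hf hf0 hz hza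
  have hcf : Continuous f := hf.continuous
  have hcd : Continuous (deriv f) := by
    have h : ContDiff ℂ 1 f := hf.contDiff
    exact h.continuous_deriv le_rfl
  constructor
  · intro hfs
    have h1 : Tendsto (fun n => z n * deriv f (z n) / f (z n)) l
        (𝓝 (zs * deriv f zs / f zs)) :=
      (hz.mul ((hcd.tendsto zs).comp hz)).div ((hcf.tendsto zs).comp hz) hfs
    refine h1.congr ?_
    intro n
    rw [(hza n).2, mul_div_cancel_right₀ _ (hza n).1]
  · intro hfs
    have hzs0 : zs ≠ 0 := by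
      intro h
      rw [h] at hfs
      exact hf0 hfs
    have han : AnalyticAt ℂ f zs := hf.analyticAt zs
    have hnl : ¬ ∀ᶠ w in 𝓝 zs, f w = 0 := by
      intro h
      have hall : AnalyticOnNhd ℂ f univ := fun w _ => hf.analyticAt w
      have h0 : AnalyticOnNhd ℂ (fun _ : ℂ => (0 : ℂ)) univ := fun w _ => analyticAt_const
      have := hall.eq_of_eventuallyEq h0 (z₀ := zs) h
      exact hf0 (congrFun this 0)
    obtain ⟨k, H, hH, hHz, hfe⟩ := (han.exists_eventuallyEq_pow_smul_nonzero_iff).2 hnl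
    have hk : 1 ≤ k := by
      rcases Nat.eq_zero_or_pos k with h | h
      · exfalso
        have := hfe.self_of_nhds
        rw [h] at this
        simp only [pow_zero, one_smul] at this
        rw [hfs] at this
        exact hHz this.symm
      · exact h
    -- derivative formula
    have hfe' : f =ᶠ[𝓝 zs] fun w => (w - zs) ^ k * H w := by
      filter_upwards [hfe] with w hw
      rw [hw, smul_eq_mul]
    have hder : ∀ᶠ w in 𝓝 zs, deriv f w =
        (k : ℂ) * (w - zs) ^ (k - 1) * H w + (w - zs) ^ k * deriv H w := by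
      have h1 : deriv f =ᶠ[𝓝 zs] deriv (fun w => (w - zs) ^ k * H w) := hfe'.deriv
      have h2 : ∀ᶠ w in 𝓝 zs, AnalyticAt ℂ H w := hH.eventually_analyticAt
      filter_upwards [h1, h2] with w hw1 hw2
      rw [hw1]
      have hd1 : HasDerivAt (fun w : ℂ => (w - zs) ^ k) ((k : ℂ) * (w - zs) ^ (k - 1)) w := by
        have h3 : HasDerivAt (fun w : ℂ => w - zs) 1 w := (hasDerivAt_id w).sub_const zs
        have h4 := HasDerivAt.fun_pow h3 k
        rw [mul_one] at h4
        exact h4
      exact (hd1.mul hw2.differentiableAt.hasDerivAt).deriv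
    have hHne : ∀ᶠ w in 𝓝 zs, H w ≠ 0 := hH.continuousAt.eventually_ne hHz
    -- the identity
    have hid : ∀ᶠ n in (l : Filter ℕ), z n ≠ zs ∧
        (z n - zs) * a n = z n * ((k : ℂ) + (z n - zs) * deriv H (z n) / H (z n)) := by
      filter_upwards [hz.eventually hfe', hz.eventually hder, hz.eventually hHne]
        with n h1 h2 h3
      have h4 := hza n
      have hne : z n - zs ≠ 0 := by
        intro h
        apply h4.1
        have : z n = zs := sub_eq_zero.1 h
        rw [this, hfs]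
      refine ⟨sub_ne_zero.1 hne, ?_⟩
      have h5 := h4.2
      rw [h1, h2] at h5
      obtain ⟨m, rfl⟩ : ∃ m, k = m + 1 := ⟨k - 1, by omega⟩
      have hpm : (z n - zs) ^ m ≠ 0 := pow_ne_zero _ hne
      rw [Nat.add_sub_cancel] at h5
      have h6 : (z n - zs) ^ m * (z n * (((m + 1 : ℕ) : ℂ) * H (z n) +
          (z n - zs) * deriv H (z n))) = (z n - zs) ^ m * (a n * ((z n - zs) * H (z n))) := by
        rw [pow_succ] at h5
        linear_combination h5
      have h7 := mul_left_cancel₀ hpm h6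
      have h8 : ((m + 1 : ℕ) : ℂ) + (z n - zs) * deriv H (z n) / H (z n) =
          (((m + 1 : ℕ) : ℂ) * H (z n) + (z n - zs) * deriv H (z n)) / H (z n) := by
        field_simp
      rw [h8, ← mul_div_assoc, h7, ← mul_assoc, mul_div_assoc, div_self h3]
      ring
    have hlim : Tendsto (fun n => z n * ((k : ℂ) + (z n - zs) * deriv H (z n) / H (z n))) l
        (𝓝 (zs * ((k : ℂ) + (zs - zs) * deriv H zs / H zs))) := by
      have hdH : ContinuousAt (deriv H) zs := hH.deriv.continuousAt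
      have t1 : Tendsto (fun n => deriv H (z n)) l (𝓝 (deriv H zs)) := hdH.tendsto.comp hz
      have t2 : Tendsto (fun n => H (z n)) l (𝓝 (H zs)) := hH.continuousAt.tendsto.comp hz
      have t3 : Tendsto (fun n => z n - zs) l (𝓝 (zs - zs)) := hz.sub_const zs
      exact hz.mul (((t3.mul t1).div t2 hHz).const_add _)
    have hlim2 : Tendsto (fun n => ‖(z n - zs) * a n‖) l
        (𝓝 ‖zs * ((k : ℂ) + (zs - zs) * deriv H zs / H zs)‖) := by
      refine hlim.norm.congr' ?_
      filter_upwards [hid] with n hn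
      rw [hn.2]
    have hpos : 0 < ‖zs * ((k : ℂ) + (zs - zs) * deriv H zs / H zs)‖ := by
      rw [norm_pos_iff]
      have hk0 : (k : ℂ) ≠ 0 := by
        have : k ≠ 0 := by omega
        exact_mod_cast this
      simpa using ⟨hzs0, by omega⟩
    have hd0 : Tendsto (fun n => ‖z n - zs‖) l (𝓝[>] 0) := by
      rw [tendsto_nhdsWithin_iff]
      constructor
      · have := (hz.sub_const zs).norm
        simpa using this
      · filter_upwards [hid] with n hn
        exact norm_pos_iff.2 (sub_ne_zero.2 hn.1)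
    have hinv : Tendsto (fun n => ‖z n - zs‖⁻¹) l atTop :=
      tendsto_inv_nhdsGT_zero.comp hd0
    have hfin : Tendsto (fun n => ‖(z n - zs) * a n‖ * ‖z n - zs‖⁻¹) l atTop :=
      hlim2.pos_mul_atTop hpos hinv
    refine hfin.congr' ?_
    filter_upwards [hid] with n hn
    have : ‖z n - zs‖ ≠ 0 := (norm_pos_iff.2 (sub_ne_zero.2 hn.1)).ne'
    rw [norm_mul]
    field_simp

end Pool.Agent.W765.MXU
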